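import Mathlib
import Pool.Agent.H76.VK.Richert

/-!
# Rich23: Richert's bound with the sharp power of the logarithm near the line `Re s = 1`

Dyadic blocks `A = 2^i`: with `Y = (log t)^(2/3)` and `v = log A / Y` the block is
`O(exp (κ v - c v^3)) = O(exp (-v))`, so the sum over all blocks is `O(Y)`.
-/

set_option autoImplicit false

open Complex

namespace Pool.Agent.H76.NS

/-- the bound from `zeta₁_approx` -/
private theorem ri_approx {s : ℂ} (hs : 0 < s.re) (hs1 : s ≠ 1) {N : ℕ} (hN : 1 ≤ N) :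
    ‖riemannZeta s‖ ≤ ‖∑ i ∈ Finset.Ico 1 N, (i : ℂ) ^ (-s)‖ + (N : ℝ) ^ (1 - s.re) / ‖s - 1‖ +
      (‖s‖ / s.re) * (N : ℝ) ^ (-s.re) := by
  have h1 := Pool.Agent.SW.zeta₁_approx hs hN
  have hs0 : 0 < ‖s - 1‖ := norm_pos_iff.2 (sub_ne_zero.2 hs1)
  have hN0 : (0 : ℝ) < N := by exact_mod_cast hN
  have h2 : ‖(N : ℂ) ^ (1 - s)‖ = (N : ℝ) ^ (1 - s.re) := by
    have := norm_cpow_eq_rpow_re_of_pos hN0 (1 - s)
    simpa using this
  have h3 : riemannZeta₁ s = (s - 1) * riemannZeta s := by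
    rw [riemannZeta_eq_inv_sub_mul hs1, ← mul_assoc, mul_inv_cancel₀ (sub_ne_zero.2 hs1), one_mul]
  rw [h3] at h1
  have h4 : (s - 1) * riemannZeta s = ((s - 1) * riemannZeta s -
      ((s - 1) * ∑ i ∈ Finset.Ico 1 N, (i : ℂ) ^ (-s) + (N : ℂ) ^ (1 - s))) +
      (s - 1) * ∑ i ∈ Finset.Ico 1 N, (i : ℂ) ^ (-s) + (N : ℂ) ^ (1 - s) := by ring
  have h5 : ‖s - 1‖ * ‖riemannZeta s‖ ≤ ‖s - 1‖ * (‖∑ i ∈ Finset.Ico 1 N, (i : ℂ) ^ (-s)‖ +
      (N : ℝ) ^ (1 - s.re) / ‖s - 1‖ + (‖s‖ / s.re) * (N : ℝ) ^ (-s.re)) := by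
    rw [← norm_mul, h4]
    refine (norm_add₃_le).trans ?_
    rw [norm_mul, h2]
    have h6 : ‖s - 1‖ * ((N : ℝ) ^ (1 - s.re) / ‖s - 1‖) = (N : ℝ) ^ (1 - s.re) := by
      field_simp
    rw [mul_add, mul_add, h6]
    nlinarith
  exact le_of_mul_le_mul_left h5 hs0

private theorem ri_norm {s : ℂ} {i : ℕ} (hi : 1 ≤ i) : ‖(i : ℂ) ^ (-s)‖ = (i : ℝ) ^ (-s.re) := by
  have := norm_cpow_eq_rpow_re_of_pos (x := (i : ℝ)) (by exact_mod_cast hi) (-s)
  simpa using this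

/-- Abel summation with decreasing weights -/
private theorem ri_abel (a : ℕ → ℂ) (w : ℕ → ℝ) {M : ℝ} {A B : ℕ} (hAB : A ≤ B)
    (hw : ∀ n, A ≤ n → w (n + 1) ≤ w n) (hw0 : ∀ n, A ≤ n → 0 ≤ w n)
    (hg : ∀ m, A ≤ m → m ≤ B → ‖∑ n ∈ Finset.Icc A m, a n‖ ≤ M) :
    ‖∑ n ∈ Finset.Icc A B, (w n : ℂ) * a n‖ ≤ w A * M := by
  have key : ‖∑ n ∈ Finset.Icc A B, (w n : ℂ) * a n -
      (w B : ℂ) * ∑ n ∈ Finset.Icc A B, a n‖ ≤ (w A - w B) * M := by
    induction B, hAB using Nat.le_induction with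
    | base => simp
    | succ B hAB ih =>
      have ih' := ih (fun m h1 h2 => hg m h1 (by omega))
      rw [← Finset.insert_Icc_right_eq_Icc_add_one (by omega : A ≤ B + 1),
        Finset.sum_insert (by simp), Finset.sum_insert (by simp)]
      have e : (w (B + 1) : ℂ) * a (B + 1) + ∑ n ∈ Finset.Icc A B, (w n : ℂ) * a n -
          (w (B + 1) : ℂ) * (a (B + 1) + ∑ n ∈ Finset.Icc A B, a n) =
          (∑ n ∈ Finset.Icc A B, (w n : ℂ) * a n - (w B : ℂ) * ∑ n ∈ Finset.Icc A B, a n) +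
          (((w B - w (B + 1) : ℝ) : ℂ)) * ∑ n ∈ Finset.Icc A B, a n := by
        push_cast
        ring
      rw [e]
      have h1 : ‖(((w B - w (B + 1) : ℝ) : ℂ)) * ∑ n ∈ Finset.Icc A B, a n‖ ≤
          (w B - w (B + 1)) * M := by
        rw [norm_mul, Complex.norm_real, Real.norm_eq_abs,
          abs_of_nonneg (by linarith [hw B hAB])]
        exact mul_le_mul_of_nonneg_left (hg B hAB (by omega)) (by linarith [hw B hAB])
      refine (norm_add_le _ _).trans ?_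
      linarith
  have h1 : ‖(w B : ℂ) * ∑ n ∈ Finset.Icc A B, a n‖ ≤ w B * M := by
    rw [norm_mul, Complex.norm_real, Real.norm_eq_abs, abs_of_nonneg (hw0 B hAB)]
    exact mul_le_mul_of_nonneg_left (hg B hAB le_rfl) (hw0 B hAB)
  calc ‖∑ n ∈ Finset.Icc A B, (w n : ℂ) * a n‖
      = ‖(∑ n ∈ Finset.Icc A B, (w n : ℂ) * a n - (w B : ℂ) * ∑ n ∈ Finset.Icc A B, a n) +
          (w B : ℂ) * ∑ n ∈ Finset.Icc A B, a n‖ := by rw [sub_add_cancel]
    _ ≤ (w A - w B) * M + w B * M := (norm_add_le _ _).trans (add_le_add key h1)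
    _ = w A * M := by ring

/-- one block -/
private theorem ri_block {s : ℂ} (hσ : 0 ≤ s.re) {M : ℝ} {A B : ℕ} (hA : 1 ≤ A) (hAB : A ≤ B)
    (hg : ∀ m, A ≤ m → m ≤ B → ‖∑ n ∈ Finset.Icc A m, (n : ℂ) ^ (-(s.im * I))‖ ≤ M) :
    ‖∑ n ∈ Finset.Icc A B, (n : ℂ) ^ (-s)‖ ≤ (A : ℝ) ^ (-s.re) * M := by
  have h1 := ri_abel (fun n => (n : ℂ) ^ (-(s.im * I))) (fun n => (n : ℝ) ^ (-s.re)) hAB
    (by
      intro n hn
      have hn0 : (0 : ℝ) < n := by
        have : 0 < n := by omega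
        exact_mod_cast this
      apply Real.rpow_le_rpow_of_nonpos hn0 _ (by linarith)
      push_cast
      linarith)
    (fun n _ => by positivity) hg
  refine le_trans (le_of_eq ?_) h1
  congr 1
  apply Finset.sum_congr rfl
  intro n hn
  have hn1 : 1 ≤ n := hA.trans (Finset.mem_Icc.mp hn).1
  have hn0 : (n : ℂ) ≠ 0 := by
    have : n ≠ 0 := by omega
    exact_mod_cast this
  have h2 : (((n : ℝ) ^ (-s.re) : ℝ) : ℂ) = (n : ℂ) ^ ((-s.re : ℝ) : ℂ) := by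
    rw [Complex.ofReal_cpow (by positivity)]
    simp
  rw [h2, ← Complex.cpow_add _ _ hn0]
  congr 1
  have h3 := Complex.re_add_im s
  push_cast
  linear_combination h3

/-- the dyadic decomposition -/
private theorem ri_dyadic (f : ℕ → ℂ) (D : ℕ → ℝ) (hD : ∀ i, 0 ≤ D i) {N : ℕ}
    (h : ∀ i B : ℕ, 2 ^ i ≤ B → B ≤ 2 * 2 ^ i → 2 ^ i ≤ N → ‖∑ n ∈ Finset.Icc (2 ^ i) B, f n‖ ≤ D i) :
    ∀ j m : ℕ, m ≤ 2 ^ j → m ≤ N → ‖∑ n ∈ Finset.Ico 1 m, f n‖ ≤ ∑ i ∈ Finset.range j, D i := by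
  intro j
  induction j with
  | zero =>
    intro m hm _
    have : Finset.Ico 1 m = ∅ := Finset.Ico_eq_empty (by omega)
    rw [this]
    simp
  | succ j ih =>
    intro m hm hmN
    rw [Finset.sum_range_succ]
    rcases Nat.lt_or_ge (2 ^ j) m with h1 | h1
    · have hA : 1 ≤ 2 ^ j := Nat.one_le_two_pow
      rw [← Finset.sum_Ico_consecutive f hA h1.le]
      have h2 := ih (2 ^ j) le_rfl (by omega)
      have h3 : Finset.Ico (2 ^ j) m = Finset.Icc (2 ^ j) (m - 1) := by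
        ext x
        simp only [Finset.mem_Ico, Finset.mem_Icc]
        omega
      have h5 : 2 ^ (j + 1) = 2 * (2 ^ j) := by ring
      have h4 := h j (m - 1) (by omega) (by omega) (by omega)
      rw [h3]
      refine (norm_add_le _ _).trans ?_
      linarith
    · have := ih m h1 hmN
      have := hD j
      linarith

/-- the exponent inequality for one block -/
private theorem ri_exp {c κ L Y a δ : ℝ} (hc : 0 < c) (hκ : 0 ≤ κ) (hY : (κ + 1) / c ≤ Y)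
    (hLY : L ^ 2 = Y ^ 3) (ha : 0 ≤ a) (hδ : δ ≤ κ / Y) :
    a * (δ - c * min 1 (a / L) ^ 2) ≤ (κ + 1) * √((κ + 1) / c) - a / Y := by
  have hY0 : 0 < Y := lt_of_lt_of_le (by positivity) hY
  have hCpos : 0 ≤ (κ + 1) * √((κ + 1) / c) := by positivity
  have h1 : a * (δ - c * min 1 (a / L) ^ 2) ≤ a * (κ / Y - c * min 1 (a / L) ^ 2) :=
    mul_le_mul_of_nonneg_left (by linarith) ha
  refine h1.trans ?_
  rcases le_total 1 (a / L) with h | h
  · rw [min_eq_left h]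
    have h2 : κ / Y - c * 1 ^ 2 ≤ -(1 / Y) := by
      have h3 : (κ + 1) / Y ≤ c := by
        rw [div_le_iff₀ hY0]
        rw [div_le_iff₀ hc] at hY
        linarith
      rw [add_div] at h3
      linarith
    have h4 := mul_le_mul_of_nonneg_left h2 ha
    have h5 : a * -(1 / Y) = -(a / Y) := by ring
    linarith
  · rw [min_eq_right h]
    obtain ⟨v, hv⟩ : ∃ v : ℝ, v = a / Y := ⟨_, rfl⟩
    have hav : a = v * Y := by rw [hv]; field_simp
    have hv0 : 0 ≤ v := by rw [hv]; positivity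
    have h2 : a * (κ / Y - c * (a / L) ^ 2) = κ * v - c * v ^ 3 := by
      rw [div_pow, hLY, hav]
      field_simp
    rw [h2, ← hv]
    obtain ⟨w, hw⟩ : ∃ w : ℝ, w = √((κ + 1) / c) := ⟨_, rfl⟩
    have hw0 : 0 ≤ w := by rw [hw]; positivity
    have hw2 : c * w ^ 2 = κ + 1 := by
      rw [hw, Real.sq_sqrt (by positivity)]
      field_simp
    rw [← hw]
    rcases le_total v w with h3 | h3
    · have h4 : (κ + 1) * v ≤ (κ + 1) * w := mul_le_mul_of_nonneg_left h3 (by linarith)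
      have h5 : 0 ≤ c * v ^ 3 := by positivity
      linarith
    · have h4 : c * w ^ 2 ≤ c * v ^ 2 := mul_le_mul_of_nonneg_left (pow_le_pow_left₀ hw0 h3 2) hc.le
      have h5 : (κ + 1) * v ≤ c * v ^ 3 := by
        calc (κ + 1) * v = c * w ^ 2 * v := by rw [hw2]
          _ ≤ c * v ^ 2 * v := mul_le_mul_of_nonneg_right h4 hv0
          _ = c * v ^ 3 := by ring
      have h6 : 0 ≤ (κ + 1) * w := by positivity
      linarith

/-- the geometric series -/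
private theorem ri_geo {Y : ℝ} (hY : 1 ≤ Y) (j : ℕ) :
    ∑ i ∈ Finset.range j, Real.exp (-((i * Real.log 2) / Y)) ≤ 3 * Y := by
  have hY0 : 0 < Y := by linarith
  have hl : 1 / 2 ≤ Real.log 2 := by
    have := Real.log_two_gt_d9
    linarith
  obtain ⟨x, hx⟩ : ∃ x : ℝ, x = Real.log 2 / Y := ⟨_, rfl⟩
  have hx0 : 0 < x := by rw [hx]; positivity
  have h1 : ∀ i : ℕ, Real.exp (-((i * Real.log 2) / Y)) = Real.exp (-x) ^ i := by
    intro i
    rw [← Real.exp_nat_mul, hx]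
    congr 1
    ring
  have hq0 : 0 ≤ Real.exp (-x) := (Real.exp_pos _).le
  have hq1 : Real.exp (-x) ≤ 1 / (1 + x) := by
    rw [Real.exp_neg, ← one_div]
    refine one_div_le_one_div_of_le (by linarith) ?_
    linarith [Real.add_one_le_exp x]
  have hq2 : 1 / (1 + x) < 1 := by
    rw [div_lt_one (by linarith)]
    linarith
  have h2 : ∑ i ∈ Finset.range j, Real.exp (-((i * Real.log 2) / Y)) =
      ∑ i ∈ Finset.range j, Real.exp (-x) ^ i := Finset.sum_congr rfl fun i _ => h1 i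
  rw [h2]
  have h3 : ∑ i ∈ Finset.range j, Real.exp (-x) ^ i ≤ (1 - Real.exp (-x))⁻¹ := by
    rw [← tsum_geometric_of_lt_one hq0 (by linarith)]
    exact (summable_geometric_of_lt_one hq0 (by linarith)).sum_le_tsum _ fun i _ => by positivity
  refine h3.trans ?_
  have h4 : x / (1 + x) ≤ 1 - Real.exp (-x) := by
    have : x / (1 + x) = 1 - 1 / (1 + x) := by field_simp; ring
    linarith
  have h5 : (1 - Real.exp (-x))⁻¹ ≤ (x / (1 + x))⁻¹ := by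
    exact inv_anti₀ (by positivity) h4
  refine h5.trans ?_
  rw [inv_div, add_div, div_self hx0.ne', hx, one_div_div]
  have h6 : Y / Real.log 2 ≤ 2 * Y := by
    rw [div_le_iff₀ (by linarith)]
    nlinarith
  linarith

private theorem ri_clog {N : ℕ} (hN : 2 ≤ N) {t : ℝ} (ht : 2 ≤ t) (hN2 : (N : ℝ) ≤ 2 * t ^ 2) :
    ((Nat.clog 2 N : ℕ) : ℝ) ≤ 6 * Real.log t := by
  have hlog2 : (69 / 100 : ℝ) ≤ Real.log 2 := by
    have := Real.log_two_gt_d9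
    linarith
  have hlt : Real.log 2 ≤ Real.log t := Real.log_le_log (by norm_num) ht
  have hN0 : (0 : ℝ) < N := by
    have : 0 < N := by omega
    exact_mod_cast this
  have hlogN : Real.log N ≤ 3 * Real.log t := by
    have h1 : Real.log N ≤ Real.log (2 * t ^ 2) := Real.log_le_log hN0 hN2
    rw [Real.log_mul (by norm_num) (by positivity), Real.log_pow] at h1
    push_cast at h1
    linarith
  have h3 : 2 ^ (Nat.clog 2 N).pred < N := Nat.pow_pred_clog_lt_self (by norm_num) (by omega)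
  have h4 : (2 : ℝ) ^ (Nat.clog 2 N).pred ≤ N := by exact_mod_cast h3.le
  have h5 : Real.log ((2 : ℝ) ^ (Nat.clog 2 N).pred) ≤ Real.log N :=
    Real.log_le_log (by positivity) h4
  rw [Real.log_pow] at h5
  have h6 : ((Nat.clog 2 N : ℕ) : ℝ) ≤ (((Nat.clog 2 N).pred : ℕ) : ℝ) + 1 := by
    have : Nat.clog 2 N ≤ (Nat.clog 2 N).pred + 1 := by
      rw [Nat.pred_eq_sub_one]
      omega
    exact_mod_cast this
  have h7 : (0 : ℝ) ≤ (((Nat.clog 2 N).pred : ℕ) : ℝ) := by positivity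
  nlinarith

/-- the case of large heights -/
theorem rich_large {c C κ : ℝ} (hc : 0 < c) (hc2 : c ≤ 1 / 2) (hC : 0 < C) (hκ : 0 ≤ κ)
    (hz : ∀ (u : ℝ) (A B : ℕ), 1 ≤ A → A ≤ B → B ≤ 2 * A → 2 ≤ |u| →
      ‖∑ n ∈ Finset.Icc A B, (n : ℂ) ^ (-(u * I))‖ ≤
        C * ((A : ℝ) ^ (1 - c * (min 1 (Real.log A / Real.log |u|)) ^ 2) + A / |u|))
    {s : ℂ} (hs : 1 / 2 ≤ s.re) (ht : 2 ≤ |s.im|)
    (hY : (9 * κ + 1) / c ≤ (Real.log |s.im|) ^ (2 / 3 : ℝ))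
    (hsY : 1 - κ / (Real.log |s.im|) ^ (2 / 3 : ℝ) ≤ s.re) :
    ‖riemannZeta s‖ ≤ (3 * C * Real.exp ((κ + 1) * √((κ + 1) / c)) + 9 * C + 5) *
      (Real.log |s.im|) ^ (2 / 3 : ℝ) := by
  obtain ⟨t, htdef⟩ : ∃ t : ℝ, t = |s.im| := ⟨_, rfl⟩
  rw [← htdef] at ht hY hsY ⊢
  obtain ⟨Y, hYdef⟩ : ∃ Y : ℝ, Y = Real.log t ^ (2 / 3 : ℝ) := ⟨_, rfl⟩
  rw [← hYdef] at hY hsY ⊢
  have hσ0 : 0 < s.re := by linarith
  have ht0 : 0 < t := by linarith
  have ht1 : 1 ≤ t := by linarith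
  have hlog2 : (69 / 100 : ℝ) ≤ Real.log 2 := by
    have := Real.log_two_gt_d9
    linarith
  have hlt : Real.log 2 ≤ Real.log t := Real.log_le_log (by norm_num) ht
  have hL0 : 0 < Real.log t := by linarith
  have hY2 : 2 ≤ Y := by
    refine le_trans ?_ hY
    rw [le_div_iff₀ hc]
    linarith
  have hY0 : 0 < Y := by linarith
  have hLY : Real.log t ^ 2 = Y ^ 3 := by
    rw [hYdef, ← Real.rpow_natCast (Real.log t ^ (2 / 3 : ℝ)) 3, ← Real.rpow_mul hL0.le,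
      ← Real.rpow_natCast (Real.log t) 2]
    norm_num
  have hκY : 9 * κ ≤ Y := by
    refine le_trans ?_ hY
    rw [le_div_iff₀ hc]
    nlinarith
  have hκ1 : (κ + 1) / c ≤ Y := by
    refine le_trans ?_ hY
    exact div_le_div_of_nonneg_right (by linarith) hc.le
  have hs1 : s ≠ 1 := by
    intro h
    rw [h, one_im, abs_zero] at htdef
    linarith
  have hts : t ≤ ‖s - 1‖ := by
    have := abs_im_le_norm (s - 1)
    rwa [sub_im, one_im, sub_zero, ← htdef] at this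
  -- the cut off
  obtain ⟨N, hN⟩ : ∃ N : ℕ, N = ⌈t ^ 2⌉₊ := ⟨_, rfl⟩
  have hN1 : t ^ 2 ≤ N := by
    rw [hN]
    exact Nat.le_ceil _
  have hN2 : (N : ℝ) ≤ 2 * t ^ 2 := by
    rw [hN]
    have := (Nat.ceil_lt_add_one (by positivity : 0 ≤ t ^ 2)).le
    nlinarith
  have hN3 : (N : ℝ) ≤ t ^ (3 : ℝ) := by
    have h1 : t ^ (3 : ℝ) = t ^ 2 * t := by
      rw [show (3 : ℝ) = ((3 : ℕ) : ℝ) by norm_num, Real.rpow_natCast]
      ring
    rw [h1]
    nlinarith [sq_nonneg t]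
  have hN0 : (0 : ℝ) < N := by
    have : 0 < t ^ 2 := by positivity
    linarith
  have hN1' : 1 ≤ N := by
    have : 0 < N := by exact_mod_cast hN0
    omega
  have hN2' : 2 ≤ N := by
    have : (2 : ℝ) ≤ N := by nlinarith
    exact_mod_cast this
  have hNr : (1 : ℝ) ≤ N := by exact_mod_cast hN1'
  have hsqrtN : (N : ℝ) ^ (1 / 2 : ℝ) ≤ 2 * t := by
    rw [← Real.sqrt_eq_rpow, Real.sqrt_le_left (by positivity)]
    nlinarith
  -- the two error terms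
  have hE1 : (N : ℝ) ^ (1 - s.re) / ‖s - 1‖ ≤ 2 := by
    rw [div_le_iff₀ (by linarith)]
    calc (N : ℝ) ^ (1 - s.re) ≤ (N : ℝ) ^ (1 / 2 : ℝ) :=
          Real.rpow_le_rpow_of_exponent_le hNr (by linarith)
      _ ≤ 2 * t := hsqrtN
      _ ≤ 2 * ‖s - 1‖ := by linarith
  have hE2 : (‖s‖ / s.re) * (N : ℝ) ^ (-s.re) ≤ 3 := by
    have h1 : ‖s‖ / s.re ≤ 3 * t := by
      rw [div_le_iff₀ hσ0]
      have := norm_le_abs_re_add_abs_im s
      rw [abs_of_nonneg hσ0.le, ← htdef] at this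
      nlinarith
    have h2 : (N : ℝ) ^ (-s.re) ≤ t⁻¹ := by
      calc (N : ℝ) ^ (-s.re) ≤ (N : ℝ) ^ (-(1 / 2) : ℝ) :=
            Real.rpow_le_rpow_of_exponent_le hNr (by linarith)
        _ ≤ (t ^ 2) ^ (-(1 / 2) : ℝ) :=
            Real.rpow_le_rpow_of_nonpos (by positivity) hN1 (by norm_num)
        _ = t⁻¹ := by
            rw [← Real.rpow_natCast t 2, ← Real.rpow_mul ht0.le, ← Real.rpow_neg_one]
            norm_num
    calc (‖s‖ / s.re) * (N : ℝ) ^ (-s.re) ≤ 3 * t * t⁻¹ := by gcongr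
      _ = 3 := by field_simp
  have hap := ri_approx hσ0 hs1 hN1'
  -- the blocks
  obtain ⟨C₁, hC₁⟩ : ∃ C₁ : ℝ, C₁ = (κ + 1) * √((κ + 1) / c) := ⟨_, rfl⟩
  rw [← hC₁]
  have hδ : 1 - s.re ≤ κ / Y := by linarith
  have hblock : ∀ i B : ℕ, 2 ^ i ≤ B → B ≤ 2 * 2 ^ i → 2 ^ i ≤ N →
      ‖∑ n ∈ Finset.Icc (2 ^ i) B, (n : ℂ) ^ (-s)‖ ≤
        C * (Real.exp C₁ * Real.exp (-((i * Real.log 2) / Y)) + t ^ (-(2 / 3) : ℝ)) := by
    intro i B hAB hB hAN
    have hA1 : 1 ≤ 2 ^ i := Nat.one_le_two_pow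
    obtain ⟨A, hA⟩ : ∃ A : ℕ, A = 2 ^ i := ⟨_, rfl⟩
    have hlA : Real.log A = i * Real.log 2 := by
      rw [hA]
      push_cast
      rw [Real.log_pow]
    rw [← hA] at hAB hB hAN hA1 ⊢
    have hAp : (0 : ℝ) < A := by exact_mod_cast hA1
    have hA1r : (1 : ℝ) ≤ A := by exact_mod_cast hA1
    have hANr : (A : ℝ) ≤ N := by exact_mod_cast hAN
    have hlA0 : 0 ≤ Real.log A := Real.log_nonneg hA1r
    obtain ⟨τ, hτ⟩ : ∃ τ : ℝ, τ = min 1 (Real.log A / Real.log t) := ⟨_, rfl⟩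
    have h4 := ri_block (s := s) hσ0.le (M := C * ((A : ℝ) ^ (1 - c * τ ^ 2) + A / t)) hA1 hAB (by
      intro m hm1 hm2
      have h3 := hz s.im A m hA1 hm1 (by omega) (by rw [← htdef]; exact ht)
      rw [← htdef, ← hτ] at h3
      exact h3)
    refine h4.trans ?_
    have h5 : (A : ℝ) ^ (-s.re) * (A : ℝ) ^ (1 - c * τ ^ 2) ≤
        Real.exp C₁ * Real.exp (-((i * Real.log 2) / Y)) := by
      rw [← Real.rpow_add hAp, ← Real.exp_add, Real.rpow_def_of_pos hAp, Real.exp_le_exp]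
      have h6 := ri_exp (a := Real.log A) hc hκ hκ1 hLY hlA0 hδ
      rw [← hτ, ← hC₁] at h6
      rw [← hlA]
      calc Real.log A * (-s.re + (1 - c * τ ^ 2)) = Real.log A * (1 - s.re - c * τ ^ 2) := by ring
        _ ≤ C₁ - Real.log A / Y := h6
        _ = C₁ + -(Real.log A / Y) := by ring
    have h6 : (A : ℝ) ^ (-s.re) * (A / t) ≤ t ^ (-(2 / 3) : ℝ) := by
      have h7 : (A : ℝ) ^ (-s.re) * (A / t) = (A : ℝ) ^ (1 - s.re) / t := by
        have h8 : (A : ℝ) ^ (1 - s.re) = (A : ℝ) ^ (-s.re) * A := by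
          nth_rewrite 3 [← Real.rpow_one (A : ℝ)]
          rw [← Real.rpow_add hAp]
          congr 1
          ring
        rw [h8]
        ring
      rw [h7, div_le_iff₀ ht0]
      calc (A : ℝ) ^ (1 - s.re) ≤ (A : ℝ) ^ (κ / Y) := Real.rpow_le_rpow_of_exponent_le hA1r hδ
        _ ≤ (t ^ (3 : ℝ)) ^ (κ / Y) := Real.rpow_le_rpow hAp.le (hANr.trans hN3) (by positivity)
        _ = t ^ (3 * (κ / Y)) := by rw [← Real.rpow_mul ht0.le]
        _ ≤ t ^ (1 / 3 : ℝ) := by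
            refine Real.rpow_le_rpow_of_exponent_le ht1 ?_
            rw [← mul_div_assoc, div_le_div_iff₀ hY0 (by norm_num)]
            linarith
        _ = t ^ (-(2 / 3) : ℝ) * t := by
            nth_rewrite 3 [← Real.rpow_one t]
            rw [← Real.rpow_add ht0]
            norm_num
    calc (A : ℝ) ^ (-s.re) * (C * ((A : ℝ) ^ (1 - c * τ ^ 2) + A / t)) =
          C * ((A : ℝ) ^ (-s.re) * (A : ℝ) ^ (1 - c * τ ^ 2) + (A : ℝ) ^ (-s.re) * (A / t)) := by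
            ring
      _ ≤ C * (Real.exp C₁ * Real.exp (-((i * Real.log 2) / Y)) + t ^ (-(2 / 3) : ℝ)) := by
          gcongr
  have hj : N ≤ 2 ^ (Nat.clog 2 N) := Nat.le_pow_clog (by norm_num : 1 < 2) N
  have htail := ri_dyadic (fun n => (n : ℂ) ^ (-s))
    (fun i => C * (Real.exp C₁ * Real.exp (-((i * Real.log 2) / Y)) + t ^ (-(2 / 3) : ℝ)))
    (fun i => by positivity) hblock (Nat.clog 2 N) N hj le_rfl
  have hsum : ∑ i ∈ Finset.range (Nat.clog 2 N),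
      C * (Real.exp C₁ * Real.exp (-((i * Real.log 2) / Y)) + t ^ (-(2 / 3) : ℝ)) ≤
      C * (Real.exp C₁ * (3 * Y) + 9) := by
    rw [← Finset.mul_sum]
    refine mul_le_mul_of_nonneg_left ?_ hC.le
    rw [Finset.sum_add_distrib, ← Finset.mul_sum, Finset.sum_const, Finset.card_range, nsmul_eq_mul]
    have h1 := ri_geo (by linarith : 1 ≤ Y) (Nat.clog 2 N)
    have h2 := mul_le_mul_of_nonneg_left h1 (Real.exp_pos C₁).le
    have h3 : (Nat.clog 2 N : ℝ) * t ^ (-(2 / 3) : ℝ) ≤ 9 := by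
      have h4 := ri_clog hN2' ht hN2
      have h5 : Real.log t ≤ t ^ (2 / 3 : ℝ) / (2 / 3) := Real.log_le_rpow_div ht0.le (by norm_num)
      have h6 : (0 : ℝ) < t ^ (-(2 / 3) : ℝ) := by positivity
      have h7 : t ^ (2 / 3 : ℝ) * t ^ (-(2 / 3) : ℝ) = 1 := by
        rw [← Real.rpow_add ht0]
        norm_num
      calc (Nat.clog 2 N : ℝ) * t ^ (-(2 / 3) : ℝ) ≤ 6 * Real.log t * t ^ (-(2 / 3) : ℝ) :=
            mul_le_mul_of_nonneg_right h4 h6.le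
        _ ≤ 6 * (t ^ (2 / 3 : ℝ) / (2 / 3)) * t ^ (-(2 / 3) : ℝ) := by gcongr
        _ = 9 * (t ^ (2 / 3 : ℝ) * t ^ (-(2 / 3) : ℝ)) := by ring
        _ = 9 := by rw [h7]; norm_num
    linarith
  have hfin := hap.trans (add_le_add_three (htail.trans hsum) hE1 hE2)
  refine hfin.trans ?_
  have h8 : 9 * C ≤ 9 * C * Y := le_mul_of_one_le_right (by positivity) (by linarith)
  nlinarith [Real.exp_pos C₁]

/-- Richert's bound with the sharp power of the logarithm at depth `κ (log t)^(-2/3)` -/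
theorem rich23 (κ : ℝ) (hκ : 0 ≤ κ) : ∃ C : ℝ, 1 ≤ C ∧ ∀ s : ℂ, 1 / 2 ≤ s.re → 2 ≤ |s.im| →
    1 - κ / (Real.log |s.im|) ^ (2 / 3 : ℝ) ≤ s.re →
    ‖riemannZeta s‖ ≤ C * (Real.log |s.im|) ^ (2 / 3 : ℝ) := by
  obtain ⟨A, hA, hm⟩ := Pool.Agent.H76.VK.vmvt
  have hMVB : Pool.Agent.H48.VB.MVB A := fun k P hk hP => hm k P hk hP
  obtain ⟨c, C, hc, hc2, hC, hz⟩ := Pool.Agent.H48.VB.vksum (by linarith : (0 : ℝ) ≤ A) hMVB
  obtain ⟨B, C', hB, hC', hr⟩ := Pool.Agent.H76.VK.richert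
  obtain ⟨Y0, hY0⟩ : ∃ Y0 : ℝ, Y0 = (9 * κ + 1) / c := ⟨_, rfl⟩
  have hY0p : 0 < Y0 := by rw [hY0]; positivity
  obtain ⟨D₁, hD₁⟩ : ∃ D₁ : ℝ, D₁ = 3 * C * Real.exp ((κ + 1) * √((κ + 1) / c)) + 9 * C + 5 := ⟨_, rfl⟩
  obtain ⟨D₂, hD₂⟩ : ∃ D₂ : ℝ, D₂ = C' * Real.exp (B * Y0 ^ (3 / 2 : ℝ)) * Y0 ^ (1 / 2 : ℝ) := ⟨_, rfl⟩
  have hD1 : 1 ≤ D₁ := by
    rw [hD₁]
    have : 0 ≤ 3 * C * Real.exp ((κ + 1) * √((κ + 1) / c)) := by positivity
    linarith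
  have hD2 : 0 ≤ D₂ := by rw [hD₂]; positivity
  refine ⟨D₁ + D₂, by linarith, ?_⟩
  intro s hs ht hsY
  have hlog2 : (69 / 100 : ℝ) ≤ Real.log 2 := by
    have := Real.log_two_gt_d9
    linarith
  have hlt : Real.log 2 ≤ Real.log |s.im| := Real.log_le_log (by norm_num) ht
  have hL0 : 0 < Real.log |s.im| := by linarith
  have hYp : 0 < (Real.log |s.im|) ^ (2 / 3 : ℝ) := by positivity
  rcases le_total Y0 ((Real.log |s.im|) ^ (2 / 3 : ℝ)) with h | h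
  · rw [hY0] at h
    have h1 := rich_large hc hc2 hC hκ hz hs ht h hsY
    rw [← hD₁] at h1
    nlinarith
  · have h1 := hr s hs ht
    obtain ⟨L, hL⟩ : ∃ L : ℝ, L = Real.log |s.im| := ⟨_, rfl⟩
    rw [← hL] at h1 h hYp hL0 ⊢
    have hLle : L ≤ Y0 ^ (3 / 2 : ℝ) := by
      have h2 := Real.rpow_le_rpow hYp.le h (by norm_num : (0 : ℝ) ≤ 3 / 2)
      rw [← Real.rpow_mul hL0.le] at h2
      norm_num at h2
      exact h2
    have h3 : |s.im| ^ (B * max (1 - s.re) 0 ^ (3 / 2 : ℝ)) ≤ Real.exp (B * Y0 ^ (3 / 2 : ℝ)) := by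
      rw [Real.rpow_def_of_pos (by linarith), ← hL, Real.exp_le_exp]
      have h4 : max (1 - s.re) 0 ^ (3 / 2 : ℝ) ≤ 1 := by
        refine Real.rpow_le_one (le_max_right _ _) ?_ (by norm_num)
        exact max_le (by linarith) (by norm_num)
      have h5 : 0 ≤ max (1 - s.re) 0 ^ (3 / 2 : ℝ) := Real.rpow_nonneg (le_max_right _ _) _
      calc L * (B * max (1 - s.re) 0 ^ (3 / 2 : ℝ)) = B * (L * max (1 - s.re) 0 ^ (3 / 2 : ℝ)) := by ring
        _ ≤ B * (L * 1) := by gcongr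
        _ ≤ B * Y0 ^ (3 / 2 : ℝ) := by rw [mul_one]; gcongr
    have h6 : L = L ^ (2 / 3 : ℝ) * (L ^ (2 / 3 : ℝ)) ^ (1 / 2 : ℝ) := by
      rw [← Real.rpow_mul hL0.le, ← Real.rpow_add hL0]
      norm_num
    have h7 : (L ^ (2 / 3 : ℝ)) ^ (1 / 2 : ℝ) ≤ Y0 ^ (1 / 2 : ℝ) :=
      Real.rpow_le_rpow hYp.le h (by norm_num)
    calc ‖riemannZeta s‖ ≤ C' * |s.im| ^ (B * max (1 - s.re) 0 ^ (3 / 2 : ℝ)) * L := h1
      _ ≤ C' * Real.exp (B * Y0 ^ (3 / 2 : ℝ)) * L := by gcongr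
      _ = C' * Real.exp (B * Y0 ^ (3 / 2 : ℝ)) * (L ^ (2 / 3 : ℝ) * (L ^ (2 / 3 : ℝ)) ^ (1 / 2 : ℝ)) := by
          rw [← h6]
      _ ≤ C' * Real.exp (B * Y0 ^ (3 / 2 : ℝ)) * (L ^ (2 / 3 : ℝ) * Y0 ^ (1 / 2 : ℝ)) := by gcongr
      _ = D₂ * L ^ (2 / 3 : ℝ) := by rw [hD₂]; ring
      _ ≤ (D₁ + D₂) * L ^ (2 / 3 : ℝ) := by nlinarith

end Pool.Agent.H76.NS
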