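import Mathlib

/-!
# No slope: analytic functions in the unit disc without logarithmic slope along a radius

`slope`: `f` analytic in the unit disc, `|f| ≤ A e^M` there and `|f(x)| ≤ A / x` for `0 < x < 1`. Then
`|f(x)| ≤ C e^(M/j)`, and if also `x^(3/4) ≤ A e^(M/j) |f(x)|`, then `1 ≤ C e^(10 M / j) |f(x)|`.
-/

set_option autoImplicit false

open Complex Metric

namespace Pool.Agent.H76.NS

/-- a function with zeros at the nodes is small near the nodes -/
theorem zeros_le (s : Finset ℂ) : ∀ (h : ℂ → ℂ) (B : ℝ), DifferentiableOn ℂ h (ball 0 1) →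
    (∀ z : ℂ, ‖z‖ ≤ 1 / 2 → ‖h z‖ ≤ B) → (∀ x ∈ s, ‖x‖ ≤ 1 / 4 ∧ h x = 0) →
    ∀ z : ℂ, ‖z‖ ≤ 1 / 2 → ‖h z‖ ≤ B * ∏ x ∈ s, (4 * ‖z - x‖) := by
  classical
  induction s using Finset.induction_on with
  | empty =>
    intro h B _ hB _ z hz
    simpa using hB z hz
  | insert x s hx ih =>
    intro h B hd hB hs z hz
    have hB0 : 0 ≤ B := (norm_nonneg _).trans (hB z hz)
    obtain ⟨hx1, hx0⟩ := hs x (Finset.mem_insert_self _ _)
    have hxb : ball (0 : ℂ) 1 ∈ nhds x := isOpen_ball.mem_nhds (by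
      rw [mem_ball_zero_iff]; linarith)
    have hg : DifferentiableOn ℂ (dslope h x) (ball 0 1) := (differentiableOn_dslope hxb).2 hd
    have hgz : ∀ w : ℂ, w ≠ x → dslope h x w = h w / (w - x) := by
      intro w hw
      rw [dslope_of_ne _ hw, slope_def_field, hx0, sub_zero]
    have hsub : closedBall (0 : ℂ) (1 / 2) ⊆ ball 0 1 := closedBall_subset_ball (by norm_num)
    have hmax : ∀ w : ℂ, ‖w‖ ≤ 1 / 2 → ‖dslope h x w‖ ≤ 4 * B := by
      intro w hw
      have hcl : DiffContOnCl ℂ (dslope h x) (ball 0 (1 / 2)) := by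
        refine DifferentiableOn.diffContOnCl ?_
        rw [closure_ball _ (by norm_num : (1 / 2 : ℝ) ≠ 0)]
        exact hg.mono hsub
      refine norm_le_of_forall_mem_frontier_norm_le (isBounded_ball (x := (0 : ℂ)) (r := 1 / 2)) hcl ?_ ?_
      · intro v hv
        rw [frontier_ball _ (by norm_num : (1 / 2 : ℝ) ≠ 0), mem_sphere_zero_iff_norm] at hv
        have h1 : 1 / 4 ≤ ‖v - x‖ := by
          have := norm_sub_norm_le v x
          linarith
        have hne : v ≠ x := by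
          rintro rfl
          rw [sub_self, norm_zero] at h1
          norm_num at h1
        rw [hgz v hne, norm_div, div_le_iff₀ (by linarith)]
        have := hB v hv.le
        nlinarith
      · rw [closure_ball _ (by norm_num : (1 / 2 : ℝ) ≠ 0), mem_closedBall_zero_iff]
        exact hw
    have hzs : ∀ y ∈ s, ‖y‖ ≤ 1 / 4 ∧ dslope h x y = 0 := by
      intro y hy
      obtain ⟨h1, h2⟩ := hs y (Finset.mem_insert_of_mem hy)
      have hne : y ≠ x := by
        rintro rfl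
        exact hx hy
      refine ⟨h1, ?_⟩
      rw [hgz y hne, h2, zero_div]
    have h3 := ih (dslope h x) (4 * B) hg hmax hzs z hz
    rw [Finset.prod_insert hx]
    by_cases hzx : z = x
    · subst hzx
      rw [hx0, norm_zero]
      refine mul_nonneg hB0 (mul_nonneg (by positivity) (Finset.prod_nonneg fun _ _ => by positivity))
    · rw [hgz z hzx, norm_div, div_le_iff₀ (norm_pos_iff.2 (sub_ne_zero.2 hzx))] at h3
      calc ‖h z‖ ≤ (4 * B * ∏ y ∈ s, (4 * ‖z - y‖)) * ‖z - x‖ := h3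
        _ = B * (4 * ‖z - x‖ * ∏ y ∈ s, (4 * ‖z - y‖)) := by ring

/-- the nodes `δ (j + i + 1) / (2 j)`, `i < j` -/
private noncomputable def nd (δ : ℝ) (j i : ℕ) : ℝ := δ * ((j + i + 1 : ℝ) / (2 * j))

private theorem nd_pos {δ : ℝ} (hδ : 0 < δ) {j i : ℕ} (hj : 1 ≤ j) : δ / 2 ≤ nd δ j i := by
  have hj0 : (0 : ℝ) < j := by exact_mod_cast hj
  unfold nd
  rw [div_eq_mul_one_div, mul_comm δ, mul_comm δ]
  refine mul_le_mul_of_nonneg_right ?_ hδ.le
  rw [div_le_div_iff₀ (by norm_num) (by positivity)]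
  have : (0 : ℝ) ≤ i := by positivity
  linarith

private theorem nd_le {δ : ℝ} (hδ : 0 < δ) {j i : ℕ} (hi : i < j) : nd δ j i ≤ δ := by
  have hj0 : (0 : ℝ) < j := by exact_mod_cast (Nat.zero_le i).trans_lt hi
  unfold nd
  have h1 : (i : ℝ) + 1 ≤ j := by exact_mod_cast hi
  have h2 : (j + i + 1 : ℝ) / (2 * j) ≤ 1 := by
    rw [div_le_one (by positivity)]
    linarith
  nlinarith

private theorem nd_sub {δ : ℝ} (hδ : 0 < δ) {j i k : ℕ} (hj : 1 ≤ j) (hik : i ≠ k) :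
    δ / (2 * j) ≤ |nd δ j i - nd δ j k| := by
  have hj0 : (0 : ℝ) < j := by exact_mod_cast hj
  have h1 : nd δ j i - nd δ j k = δ / (2 * j) * ((i : ℝ) - k) := by
    unfold nd
    field_simp
    ring
  rw [h1, abs_mul, abs_of_pos (by positivity : 0 < δ / (2 * (j : ℝ)))]
  have h2 : (1 : ℝ) ≤ |(i : ℝ) - k| := by
    have h3 : (1 : ℤ) ≤ |(i : ℤ) - k| := Int.one_le_abs (sub_ne_zero.2 (by exact_mod_cast hik))
    calc (1 : ℝ) ≤ ((|(i : ℤ) - k| : ℤ) : ℝ) := by exact_mod_cast h3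
      _ = |(i : ℝ) - k| := by push_cast; rfl
  exact le_mul_of_one_le_right (by positivity) h2

/-- Lagrange interpolation at the nodes -/
private noncomputable def lag (f : ℂ → ℂ) (δ : ℝ) (j : ℕ) (z : ℂ) : ℂ :=
  ∑ i ∈ Finset.range j, f (nd δ j i : ℂ) *
    ∏ k ∈ (Finset.range j).erase i, ((z - (nd δ j k : ℂ)) / ((nd δ j i : ℂ) - (nd δ j k : ℂ)))

private theorem lag_node {f : ℂ → ℂ} {δ : ℝ} (hδ : 0 < δ) {j m : ℕ} (hm : m < j) :
    lag f δ j (nd δ j m : ℂ) = f (nd δ j m : ℂ) := by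
  unfold lag
  rw [Finset.sum_eq_single m]
  · have h1 : ∏ k ∈ (Finset.range j).erase m,
        (((nd δ j m : ℂ) - (nd δ j k : ℂ)) / ((nd δ j m : ℂ) - (nd δ j k : ℂ))) = 1 := by
      refine Finset.prod_eq_one ?_
      intro k hk
      have hkm : m ≠ k := (Finset.ne_of_mem_erase hk).symm
      refine div_self ?_
      intro h0
      have h2 := nd_sub hδ (show 1 ≤ j by omega) hkm
      have h3 : nd δ j m - nd δ j k = 0 := by exact_mod_cast h0
      rw [h3, abs_zero] at h2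
      have hj0 : (0 : ℝ) < j := by exact_mod_cast (Nat.zero_le m).trans_lt hm
      have : 0 < δ / (2 * (j : ℝ)) := by positivity
      linarith
    rw [h1, mul_one]
  · intro i hi him
    refine mul_eq_zero_of_right _ (Finset.prod_eq_zero (i := m) ?_ ?_)
    · exact Finset.mem_erase.2 ⟨him.symm, Finset.mem_range.2 hm⟩
    · rw [sub_self, zero_div]
  · intro h
    exact absurd (Finset.mem_range.2 hm) h

private theorem lag_bound {f : ℂ → ℂ} {δ a b : ℝ} (hδ : 0 < δ) {j : ℕ} (hj : 1 ≤ j) (hb : 0 ≤ b)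
    (hf : ∀ i, i < j → ‖f (nd δ j i : ℂ)‖ ≤ a) {z : ℂ}
    (hz : ∀ k, k < j → ‖z - (nd δ j k : ℂ)‖ ≤ b) :
    ‖lag f δ j z‖ ≤ j * (a * (2 * j * b / δ) ^ (j - 1)) := by
  have hj0 : (0 : ℝ) < j := by exact_mod_cast hj
  have ha : 0 ≤ a := (norm_nonneg _).trans (hf 0 hj)
  unfold lag
  refine (norm_sum_le _ _).trans ?_
  have h1 : ∀ i ∈ Finset.range j, ‖f (nd δ j i : ℂ) *
      ∏ k ∈ (Finset.range j).erase i, ((z - (nd δ j k : ℂ)) / ((nd δ j i : ℂ) - (nd δ j k : ℂ)))‖ ≤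
      a * (2 * j * b / δ) ^ (j - 1) := by
    intro i hi
    rw [norm_mul]
    refine mul_le_mul (hf i (Finset.mem_range.1 hi)) ?_ (norm_nonneg _) ha
    rw [norm_prod]
    have h2 : ∀ k ∈ (Finset.range j).erase i,
        ‖(z - (nd δ j k : ℂ)) / ((nd δ j i : ℂ) - (nd δ j k : ℂ))‖ ≤ 2 * j * b / δ := by
      intro k hk
      have hki : i ≠ k := (Finset.ne_of_mem_erase hk).symm
      have hkj : k < j := Finset.mem_range.1 (Finset.mem_of_mem_erase hk)
      have h3 := nd_sub hδ hj hki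
      have h4 : ‖(nd δ j i : ℂ) - (nd δ j k : ℂ)‖ = |nd δ j i - nd δ j k| := by
        rw [← Complex.ofReal_sub, Complex.norm_real, Real.norm_eq_abs]
      have h5 : 0 < δ / (2 * (j : ℝ)) := by positivity
      rw [norm_div, h4, div_le_iff₀ (h5.trans_le h3)]
      calc ‖z - (nd δ j k : ℂ)‖ ≤ b := hz k hkj
        _ = 2 * j * b / δ * (δ / (2 * j)) := by field_simp
        _ ≤ 2 * j * b / δ * |nd δ j i - nd δ j k| :=
            mul_le_mul_of_nonneg_left h3 (by positivity)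
    refine (Finset.prod_le_prod (fun _ _ => norm_nonneg _) h2).trans (le_of_eq ?_)
    rw [Finset.prod_const, Finset.card_erase_of_mem hi, Finset.card_range]
  refine (Finset.sum_le_sum h1).trans ?_
  rw [Finset.sum_const, Finset.card_range, nsmul_eq_mul]

private theorem lag_diff (f : ℂ → ℂ) (δ : ℝ) (j : ℕ) : Differentiable ℂ (lag f δ j) := by
  unfold lag
  fun_prop

/-- in the disc of radius `δ` the function is `O(1/δ)` -/
theorem disc_bound (j : ℕ) (hj : 1 ≤ j) : ∃ K : ℝ, 1 ≤ K ∧ ∀ (A δ : ℝ) (f : ℂ → ℂ), 1 ≤ A → 0 < δ →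
    δ ≤ 1 / 4 → DifferentiableOn ℂ f (ball 0 1) → (∀ z ∈ ball (0 : ℂ) 1, ‖f z‖ ≤ A * (1 / δ) ^ j) →
    (∀ x : ℝ, 0 < x → x < 1 → ‖f (x : ℂ)‖ ≤ A / x) → ∀ z : ℂ, ‖z‖ ≤ δ → ‖f z‖ ≤ K * A / δ := by
  classical
  have hj0 : (0 : ℝ) < j := by exact_mod_cast hj
  refine ⟨(1 + (2 * j : ℝ) ^ j) * 8 ^ j + (4 * j : ℝ) ^ j, ?_, ?_⟩
  · have h1 : (1 : ℝ) ≤ 8 ^ j := one_le_pow₀ (by norm_num)
    have h2 : (0 : ℝ) ≤ (2 * j : ℝ) ^ j := by positivity
    have h3 : (0 : ℝ) ≤ (4 * j : ℝ) ^ j := by positivity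
    nlinarith
  intro A δ f hA hδ hδ4 hd hbd hax z hz
  have hfi : ∀ i, i < j → ‖f (nd δ j i : ℂ)‖ ≤ 2 * A / δ := by
    intro i hi
    have h1 := nd_pos (i := i) hδ hj
    have h2 := nd_le hδ hi
    refine (hax _ (by linarith) (by linarith)).trans ?_
    rw [div_le_div_iff₀ (by linarith) hδ]
    nlinarith
  have hnn : ∀ i, i < j → ‖(nd δ j i : ℂ)‖ ≤ δ := by
    intro i hi
    have h1 := nd_pos (i := i) hδ hj
    rw [Complex.norm_real, Real.norm_eq_abs, abs_of_pos (by linarith)]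
    exact nd_le hδ hi
  -- the interpolation on the disc of radius 1/2
  have hI1 : ∀ w : ℂ, ‖w‖ ≤ 1 / 2 → ‖lag f δ j w‖ ≤ A * (2 * j / δ) ^ j := by
    intro w hw
    have h1 := lag_bound (f := f) (z := w) hδ hj (zero_le_one) hfi (by
      intro k hk
      have := norm_sub_le w (nd δ j k : ℂ)
      have := hnn k hk
      linarith)
    refine h1.trans (le_of_eq ?_)
    obtain ⟨m, rfl⟩ : ∃ m, j = m + 1 := ⟨j - 1, by omega⟩
    rw [Nat.add_sub_cancel, mul_one, pow_succ]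
    field_simp
  -- the interpolation on the disc of radius δ
  have hI2 : ‖lag f δ j z‖ ≤ A / δ * (4 * j) ^ j := by
    have h1 := lag_bound (f := f) (z := z) hδ hj (by positivity : 0 ≤ 2 * δ) hfi (by
      intro k hk
      have := norm_sub_le z (nd δ j k : ℂ)
      have := hnn k hk
      linarith)
    refine h1.trans ?_
    obtain ⟨m, rfl⟩ : ∃ m, j = m + 1 := ⟨j - 1, by omega⟩
    rw [Nat.add_sub_cancel, pow_succ]
    have h2 : 2 * ((m + 1 : ℕ) : ℝ) * (2 * δ) / δ = 4 * ((m + 1 : ℕ) : ℝ) := by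
      field_simp
      ring
    rw [h2]
    have h3 : ((m + 1 : ℕ) : ℝ) * (2 * A / δ * (4 * ((m + 1 : ℕ) : ℝ)) ^ m) =
        1 / 2 * (A / δ * ((4 * ((m + 1 : ℕ) : ℝ)) ^ m * (4 * ((m + 1 : ℕ) : ℝ)))) := by
      ring
    rw [h3]
    have h4 : 0 ≤ A / δ * ((4 * ((m + 1 : ℕ) : ℝ)) ^ m * (4 * ((m + 1 : ℕ) : ℝ))) := by positivity
    linarith
  -- the difference
  have hD : ∀ w : ℂ, ‖w‖ ≤ 1 / 2 → ‖f w - lag f δ j w‖ ≤ A * (1 + (2 * j : ℝ) ^ j) * (1 / δ) ^ j := by
    intro w hw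
    have h1 := hbd w (by rw [mem_ball_zero_iff]; linarith)
    have h2 := hI1 w hw
    have h3 : A * (2 * j / δ) ^ j = A * (2 * j : ℝ) ^ j * (1 / δ) ^ j := by
      rw [div_pow, one_div, inv_pow]
      ring
    rw [h3] at h2
    have h4 := norm_sub_le (f w) (lag f δ j w)
    linarith
  have hinj : Set.InjOn (fun i : ℕ => (nd δ j i : ℂ)) (Finset.range j : Set ℕ) := by
    intro i hi k hk hik
    by_contra hne
    have h2 := nd_sub hδ hj hne
    have hik' : (nd δ j i : ℂ) = (nd δ j k : ℂ) := hik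
    have h3 : nd δ j i = nd δ j k := by exact_mod_cast hik'
    rw [h3, sub_self, abs_zero] at h2
    have : 0 < δ / (2 * (j : ℝ)) := by positivity
    linarith
  have hz2 : ‖z‖ ≤ 1 / 2 := by linarith
  have h5 := zeros_le ((Finset.range j).image fun i : ℕ => (nd δ j i : ℂ)) (fun w => f w - lag f δ j w)
    (A * (1 + (2 * j : ℝ) ^ j) * (1 / δ) ^ j)
    (hd.sub (lag_diff f δ j).differentiableOn) hD (by
      intro x hx
      obtain ⟨i, hi, rfl⟩ := Finset.mem_image.1 hx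
      rw [Finset.mem_range] at hi
      refine ⟨(hnn i hi).trans hδ4, ?_⟩
      show f (nd δ j i : ℂ) - lag f δ j (nd δ j i : ℂ) = 0
      rw [lag_node hδ hi, sub_self]) z hz2
  rw [Finset.prod_image hinj] at h5
  have h6 : ∏ i ∈ Finset.range j, (4 * ‖z - (nd δ j i : ℂ)‖) ≤ (8 * δ) ^ j := by
    have h61 : ∀ i ∈ Finset.range j, 4 * ‖z - (nd δ j i : ℂ)‖ ≤ 8 * δ := by
      intro i hi
      have := norm_sub_le z (nd δ j i : ℂ)
      have := hnn i (Finset.mem_range.1 hi)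
      linarith
    refine (Finset.prod_le_prod (fun _ _ => by positivity) h61).trans (le_of_eq ?_)
    rw [Finset.prod_const, Finset.card_range]
  have h7 : ‖f z - lag f δ j z‖ ≤ A * (1 + (2 * j : ℝ) ^ j) * 8 ^ j := by
    refine h5.trans ?_
    calc A * (1 + (2 * j : ℝ) ^ j) * (1 / δ) ^ j * ∏ i ∈ Finset.range j, (4 * ‖z - (nd δ j i : ℂ)‖) ≤
        A * (1 + (2 * j : ℝ) ^ j) * (1 / δ) ^ j * (8 * δ) ^ j :=
          mul_le_mul_of_nonneg_left h6 (by positivity)
      _ = A * (1 + (2 * j : ℝ) ^ j) * 8 ^ j := by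
          rw [mul_assoc _ ((1 / δ) ^ j), ← mul_pow]
          congr 2
          field_simp
  have h8 : ‖f z‖ ≤ ‖f z - lag f δ j z‖ + ‖lag f δ j z‖ := by
    have := norm_add_le (f z - lag f δ j z) (lag f δ j z)
    rwa [sub_add_cancel] at this
  have h9 : A ≤ A / δ := by
    rw [le_div_iff₀ hδ]
    nlinarith
  calc ‖f z‖ ≤ A * (1 + (2 * j : ℝ) ^ j) * 8 ^ j + A / δ * (4 * j) ^ j := by linarith
    _ = A * ((1 + (2 * j : ℝ) ^ j) * 8 ^ j) + A / δ * (4 * j) ^ j := by ring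
    _ ≤ A / δ * ((1 + (2 * j : ℝ) ^ j) * 8 ^ j) + A / δ * (4 * j) ^ j := by
        have : A * ((1 + (2 * j : ℝ) ^ j) * 8 ^ j) ≤ A / δ * ((1 + (2 * j : ℝ) ^ j) * 8 ^ j) :=
          mul_le_mul_of_nonneg_right h9 (by positivity)
        linarith
    _ = ((1 + (2 * j : ℝ) ^ j) * 8 ^ j + (4 * j : ℝ) ^ j) * A / δ := by ring

/-- **No slope.** -/
theorem slope (j : ℕ) (hj : 1 ≤ j) (A : ℝ) (hA : 1 ≤ A) : ∃ C : ℝ, 1 ≤ C ∧ ∀ (M : ℝ) (f : ℂ → ℂ),
    0 ≤ M → DifferentiableOn ℂ f (ball 0 1) → (∀ z ∈ ball (0 : ℂ) 1, ‖f z‖ ≤ A * Real.exp M) →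
    (∀ x : ℝ, 0 < x → x < 1 → ‖f (x : ℂ)‖ ≤ A / x) →
    (∀ x : ℝ, 0 < x → x < 1 → ‖f (x : ℂ)‖ ≤ C * Real.exp (M / j)) ∧
    ((∀ x : ℝ, 0 < x → x < 1 → x ^ (3 / 4 : ℝ) ≤ A * Real.exp (M / j) * ‖f (x : ℂ)‖) →
      ∀ x : ℝ, 0 < x → x < 1 → 1 ≤ C * Real.exp (10 * M / j) * ‖f (x : ℂ)‖) := by
  obtain ⟨K, hK, hdisc⟩ := disc_bound j hj
  have hj0 : (0 : ℝ) < j := by exact_mod_cast hj
  have hA0 : 0 < A := by linarith
  have hK0 : 0 < K := by linarith
  refine ⟨4 ^ 10 * K ^ 3 * A ^ 7, ?_, ?_⟩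
  · have h1 : 1 ≤ K ^ 3 := one_le_pow₀ hK
    have h2 : 1 ≤ A ^ 7 := one_le_pow₀ hA
    nlinarith
  intro M f hM hd hb hx
  obtain ⟨δ, hδ⟩ : ∃ δ : ℝ, δ = 1 / 4 * Real.exp (-(M / j)) := ⟨_, rfl⟩
  have hδ0 : 0 < δ := by rw [hδ]; positivity
  have hMj : 0 ≤ M / j := by positivity
  have hδ4 : δ ≤ 1 / 4 := by
    rw [hδ]
    have : Real.exp (-(M / j)) ≤ 1 := Real.exp_le_one_iff.2 (by linarith)
    linarith
  have hexp : Real.exp (M / j) = 1 / (4 * δ) := by
    rw [hδ, Real.exp_neg]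
    field_simp
  have hbd : ∀ z ∈ ball (0 : ℂ) 1, ‖f z‖ ≤ A * (1 / δ) ^ j := by
    intro z hz
    refine (hb z hz).trans (mul_le_mul_of_nonneg_left ?_ hA0.le)
    have h1 : Real.exp M = Real.exp (M / j) ^ j := by
      rw [← Real.exp_nat_mul]
      congr 1
      field_simp
    rw [h1, hexp]
    refine pow_le_pow_left₀ (by positivity) ?_ _
    rw [div_le_div_iff₀ (by positivity) hδ0]
    linarith
  have hdb := hdisc A δ f hA hδ0 hδ4 hd hbd hx
  refine ⟨?_, ?_⟩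
  · intro x hx0 hx1
    have h1 : ‖f (x : ℂ)‖ ≤ K * A / δ := by
      rcases le_total x δ with h | h
      · refine hdb x ?_
        rw [Complex.norm_real, Real.norm_eq_abs, abs_of_pos hx0]
        exact h
      · refine (hx x hx0 hx1).trans ?_
        rw [div_le_div_iff₀ hx0 hδ0]
        have h2 : A * δ ≤ A * x := mul_le_mul_of_nonneg_left h hA0.le
        have h3 : A * x ≤ K * (A * x) := le_mul_of_one_le_left (by positivity) hK
        linarith
    refine h1.trans ?_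
    rw [hexp, div_le_iff₀ hδ0]
    have h4 : 4 ^ 10 * K ^ 3 * A ^ 7 * (1 / (4 * δ)) * δ = 4 ^ 9 * K ^ 3 * A ^ 7 := by
      field_simp
    rw [h4]
    have h5 : K ≤ K ^ 3 := le_self_pow₀ hK (by norm_num)
    have h6 : A ≤ A ^ 7 := le_self_pow₀ hA (by norm_num)
    have h7 : K * A ≤ K ^ 3 * A ^ 7 := mul_le_mul h5 h6 hA0.le (by positivity)
    have h8 : 0 ≤ K ^ 3 * A ^ 7 := by positivity
    nlinarith
  · intro hlow
    -- the Lipschitz bound
    have hder : ∀ w ∈ closedBall (0 : ℂ) (δ / 2), ‖deriv f w‖ ≤ 2 * K * A / δ ^ 2 := by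
      intro w hw
      rw [mem_closedBall_zero_iff] at hw
      have hsub : closedBall w (δ / 2) ⊆ ball 0 1 := by
        intro v hv
        rw [mem_closedBall, dist_eq_norm] at hv
        rw [mem_ball_zero_iff]
        have := norm_add_le (v - w) w
        rw [sub_add_cancel] at this
        linarith
      have hcl : DiffContOnCl ℂ f (ball w (δ / 2)) := by
        refine DifferentiableOn.diffContOnCl ?_
        rw [closure_ball _ (by positivity : δ / 2 ≠ 0)]
        exact hd.mono hsub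
      have h1 := norm_deriv_le_of_forall_mem_sphere_norm_le (by positivity : 0 < δ / 2) hcl
        (C := K * A / δ) (by
          intro v hv
          refine hdb v ?_
          rw [mem_sphere, dist_eq_norm] at hv
          have := norm_add_le (v - w) w
          rw [sub_add_cancel] at this
          linarith)
      refine h1.trans (le_of_eq ?_)
      field_simp
    have hlip : ∀ x y : ℝ, 0 ≤ x → x ≤ δ / 2 → 0 ≤ y → y ≤ δ / 2 →
        ‖f (y : ℂ) - f (x : ℂ)‖ ≤ 2 * K * A / δ ^ 2 * |y - x| := by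
      intro x y hx0 hx1 hy0 hy1
      have h1 := Convex.norm_image_sub_le_of_norm_deriv_le (𝕜 := ℂ) (f := f) (s := closedBall (0 : ℂ) (δ / 2))
        (C := 2 * K * A / δ ^ 2) (x := (x : ℂ)) (y := (y : ℂ)) (by
          intro w hw
          refine hd.differentiableAt (isOpen_ball.mem_nhds ?_)
          rw [mem_closedBall_zero_iff] at hw
          rw [mem_ball_zero_iff]
          linarith) hder (convex_closedBall _ _) (by
          rw [mem_closedBall_zero_iff, Complex.norm_real, Real.norm_eq_abs, abs_of_nonneg hx0]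
          exact hx1) (by
          rw [mem_closedBall_zero_iff, Complex.norm_real, Real.norm_eq_abs, abs_of_nonneg hy0]
          exact hy1)
      rwa [← Complex.ofReal_sub, Complex.norm_real, Real.norm_eq_abs] at h1
    -- the point x₀ = q⁴
    obtain ⟨q, hq⟩ : ∃ q : ℝ, q = δ ^ 3 / (K * A ^ 2) := ⟨_, rfl⟩
    have hq0 : 0 < q := by rw [hq]; positivity
    have hqδ : q ≤ δ ^ 3 := by
      rw [hq]
      refine div_le_self (by positivity) ?_
      have : 1 ≤ A ^ 2 := one_le_pow₀ hA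
      nlinarith
    have hδ3 : δ ^ 3 ≤ δ / 2 := by nlinarith [mul_pos hδ0 hδ0]
    have hq1 : q ≤ 1 := by nlinarith
    have hq4 : q ^ 4 ≤ δ / 2 := by
      have : q ^ 4 ≤ q := by
        calc q ^ 4 ≤ q ^ 1 := pow_le_pow_of_le_one hq0.le hq1 (by norm_num)
          _ = q := pow_one q
      linarith
    have hq34 : (q ^ 4) ^ (3 / 4 : ℝ) = q ^ 3 := by
      rw [← Real.rpow_natCast q 4, ← Real.rpow_mul hq0.le, ← Real.rpow_natCast q 3]
      norm_num
    have hkey : ∀ x : ℝ, 0 < x → x < 1 → 2 * δ * q ^ 3 / A ≤ ‖f (x : ℂ)‖ := by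
      intro x hx0 hx1
      have hq40 : 0 < q ^ 4 := by positivity
      rcases le_total x (q ^ 4) with h | h
      · have h1 := hlow (q ^ 4) hq40 (by linarith)
        rw [hq34, hexp] at h1
        have h2 := hlip x (q ^ 4) hx0.le (h.trans hq4) hq40.le hq4
        rw [abs_of_nonneg (by linarith)] at h2
        have h3 : 2 * K * A / δ ^ 2 * (q ^ 4 - x) ≤ 2 * δ * q ^ 3 / A := by
          have h4 : 2 * K * A / δ ^ 2 * (q ^ 4 - x) ≤ 2 * K * A / δ ^ 2 * q ^ 4 :=
            mul_le_mul_of_nonneg_left (by linarith) (by positivity)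
          refine h4.trans (le_of_eq ?_)
          have h5 : q ^ 4 = q ^ 3 * (δ ^ 3 / (K * A ^ 2)) := by
            rw [← hq]; ring
          rw [h5]
          field_simp
        have h6 : 4 * δ * q ^ 3 / A ≤ ‖f ((q ^ 4 : ℝ) : ℂ)‖ := by
          rw [div_le_iff₀ hA0]
          have h7 : A * (1 / (4 * δ)) * ‖f ((q ^ 4 : ℝ) : ℂ)‖ * (4 * δ) = ‖f ((q ^ 4 : ℝ) : ℂ)‖ * A := by
            field_simp
          have h8 := mul_le_mul_of_nonneg_right h1 (by positivity : 0 ≤ 4 * δ)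
          linarith
        have h9 : ‖f ((q ^ 4 : ℝ) : ℂ)‖ ≤ ‖f ((q ^ 4 : ℝ) : ℂ) - f (x : ℂ)‖ + ‖f (x : ℂ)‖ := by
          have := norm_add_le (f ((q ^ 4 : ℝ) : ℂ) - f (x : ℂ)) (f (x : ℂ))
          rwa [sub_add_cancel] at this
        have h10 : 4 * δ * q ^ 3 / A = 2 * δ * q ^ 3 / A + 2 * δ * q ^ 3 / A := by ring
        linarith
      · have h1 := hlow x hx0 hx1
        have h2 : q ^ 3 ≤ x ^ (3 / 4 : ℝ) := by
          rw [← hq34]
          exact Real.rpow_le_rpow (by positivity) h (by norm_num)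
        rw [hexp] at h1
        rw [div_le_iff₀ hA0]
        have h7 : A * (1 / (4 * δ)) * ‖f (x : ℂ)‖ * (4 * δ) = ‖f (x : ℂ)‖ * A := by
          field_simp
        have h8 := mul_le_mul_of_nonneg_right (h2.trans h1) (by positivity : 0 ≤ 4 * δ)
        have h9 : 0 ≤ δ * q ^ 3 := by positivity
        linarith
    intro x hx0 hx1
    have h1 := hkey x hx0 hx1
    have h2 : Real.exp (10 * M / j) = (1 / (4 * δ)) ^ 10 := by
      rw [← hexp, ← Real.exp_nat_mul]
      congr 1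
      push_cast
      ring
    rw [h2]
    have h3 : 4 ^ 10 * K ^ 3 * A ^ 7 * (1 / (4 * δ)) ^ 10 * (2 * δ * q ^ 3 / A) = 2 := by
      rw [hq]
      field_simp
      try norm_num
      try ring
    have h4 : 4 ^ 10 * K ^ 3 * A ^ 7 * (1 / (4 * δ)) ^ 10 * (2 * δ * q ^ 3 / A) ≤
        4 ^ 10 * K ^ 3 * A ^ 7 * (1 / (4 * δ)) ^ 10 * ‖f (x : ℂ)‖ :=
      mul_le_mul_of_nonneg_left h1 (by positivity)
    linarith

end Pool.Agent.H76.NS
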